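import Pool.Agent.Q67.AXI.Fin4
import Pool.Agent.D0H33.AXF.All

/-!
Radial fluxes of both signs at the singular points of axisymmetric Navier-Stokes flows.

`V` is `ℝ³` with the maximum norm, the axis of symmetry is the third coordinate axis, and the
field `v` is axisymmetric (`Axi v`) if `v (rot θ x) = rot θ (v x)` for all the rotations `rot θ`
about the axis. Then `v ![ρ, 0, z] 0` is the radial component `v_ρ(ρ, z)` at the distance `ρ > 0`
of the axis and the height `z`, so `2 π ρ ∫_{z₁}^{z₂} v_ρ(ρ, z) dz` is the outward flux through the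
band `z₁ < z < z₂` of the cylinder of radius `ρ`. A point `a` is singular at the time `T`
(`Sing T u a`) if `u` is unbounded in every neighbourhood of `(T, a)`.

At a singular point of the axis there are, at times arbitrarily close to `T` and at arbitrarily
small distances `ρ`, a band with outward flux larger than `2 π ρ (ν / 3 + B(t) ρ)` and a band with
inward flux larger than this, both at the same time and in the same small cylinder; here `B ≥ 0` is
any continuous square integrable function of the time. There is no condition on the swirl. In other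
words, a bound from one side of the fluxes, where the side may depend on `t` and `ρ`, excludes
singular points; for instance any bound `u_ρ ≤ C` near `a`, or any bound `u_ρ ≥ -C`.
-/

open MeasureTheory Set
open H459R3.NS Pool.Agent.W268.NS
open Pool.Agent.Q85.CL (Sing Blow DSl WSl)
open Pool.Agent.TH305.AX (rot Axi)

set_option autoImplicit false

namespace Pool.Agent.Results.MP_09540e_an.FluxesOfBothSigns

/-- For all functions `B ≥ 0`, continuous on `(0, T)` and with integrable square, all `T₀ < T` and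
all `R > 0` there are a time `t` in `(T₀, T)`, `t > 0`, and a radius `0 < ρ < R` such that
`∫ u_ρ(t, ρ, z) dz > ν / 3 + B(t) ρ` for some interval of heights in `[a₂ - R, a₂ + R]` and
`∫ u_ρ(t, ρ, z) dz < -(ν / 3 + B(t) ρ)` for another one. -/
def BothFluxes (ν T : ℝ) (u : ℝ → V → V) (a : V) : Prop :=
  ∀ (B : ℝ → ℝ) (T₀ R : ℝ), ContinuousOn B (Ioo 0 T) →
    IntegrableOn (fun t => B t ^ 2) (Ioo 0 T) → (∀ t, 0 ≤ B t) → T₀ < T → 0 < R →
      ∃ t ∈ Ioo 0 T, T₀ < t ∧ ∃ ρ ∈ Ioo 0 R,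
        (∃ z₁ z₂ : ℝ, a 2 - R ≤ z₁ ∧ z₁ ≤ z₂ ∧ z₂ ≤ a 2 + R ∧
          ν / 3 + B t * ρ < ∫ z in z₁..z₂, u t ![ρ, 0, z] 0) ∧
        ∃ z₁ z₂ : ℝ, a 2 - R ≤ z₁ ∧ z₁ ≤ z₂ ∧ z₂ ≤ a 2 + R ∧
          ∫ z in z₁..z₂, u t ![ρ, 0, z] 0 < -(ν / 3 + B t * ρ)

/-- For all `C`, `T₀ < T` and `R > 0` there are a time `t` in `(T₀, T)`, `t > 0`, and a radius
`0 < ρ < R` such that `u_ρ(t, ρ, z) > C` and `u_ρ(t, ρ, z') < -C` for some heights `z`, `z'` with
distance at most `R` to `a₂`. -/
def BothSigns (T : ℝ) (u : ℝ → V → V) (a : V) : Prop :=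
  ∀ C T₀ R : ℝ, T₀ < T → 0 < R → ∃ t ∈ Ioo 0 T, T₀ < t ∧ ∃ ρ ∈ Ioo 0 R,
    (∃ z : ℝ, |z - a 2| ≤ R ∧ C < u t ![ρ, 0, z] 0) ∧
      ∃ z : ℝ, |z - a 2| ≤ R ∧ u t ![ρ, 0, z] 0 < -C

lemma both_fluxes {ν T : ℝ} {u : ℝ → V → V} {a : V} (h : D0H33.AXF.Flows ν T u a) :
    BothFluxes ν T u a := by
  intro B T₀ R h1 h2 h3 h4 h5
  obtain ⟨t, ht, ht0, ρ, hρ, hn⟩ := h B T₀ R h1 h2 h3 h4 h5
  refine ⟨t, ht, ht0, ρ, hρ, ?_⟩
  unfold D0H33.AXF.Flx at hn
  push Not at hn
  exact hn

lemma both_signs {ν T : ℝ} {u : ℝ → V → V} {a : V} (hν : 0 < ν) (h : BothFluxes ν T u a) :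
    BothSigns T u a := by
  intro C T₀ R hT hR
  have hC := abs_nonneg C
  obtain ⟨R', hR'⟩ : ∃ R' : ℝ, R' = min R (ν / (6 * (|C| + 1))) := ⟨_, rfl⟩
  have h0 : 0 < R' := by
    rw [hR']
    positivity
  have h1 : R' ≤ R := by rw [hR']; exact min_le_left _ _
  have h2 : 2 * R' * |C| ≤ ν / 3 := by
    have h3 : R' ≤ ν / (6 * (|C| + 1)) := by rw [hR']; exact min_le_right _ _
    rw [le_div_iff₀ (by positivity)] at h3
    nlinarith
  obtain ⟨t, ht, ht0, ρ, hρ, ⟨z₁, z₂, a1, a2, a3, a4⟩, z₃, z₄, b1, b2, b3, b4⟩ :=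
    h (fun _ => 0) T₀ R' continuousOn_const (by simp) (fun _ => le_rfl) hT h0
  refine ⟨t, ht, ht0, ρ, ⟨hρ.1, hρ.2.trans_le h1⟩, ?_, ?_⟩
  · by_contra hcon
    push Not at hcon
    have h3 : ‖∫ z in z₁..z₂, (0 : ℝ)‖ = 0 := by simp
    have key : ∫ z in z₁..z₂, u t ![ρ, 0, z] 0 ≤ |C| * (z₂ - z₁) := by
      by_cases hi : IntervalIntegrable (fun z => u t ![ρ, 0, z] 0) volume z₁ z₂
      · have h4 := intervalIntegral.integral_mono_on (g := fun _ => |C|) a2 hi
          intervalIntegrable_const (fun z hz => (hcon z (by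
            rw [abs_le]
            constructor <;> linarith [hz.1, hz.2])).trans (le_abs_self C))
        rw [intervalIntegral.integral_const, smul_eq_mul] at h4
        linarith
      · rw [intervalIntegral.integral_undef hi]
        have := sub_nonneg.2 a2
        positivity
    nlinarith
  · by_contra hcon
    push Not at hcon
    have key : -(|C| * (z₄ - z₃)) ≤ ∫ z in z₃..z₄, u t ![ρ, 0, z] 0 := by
      by_cases hi : IntervalIntegrable (fun z => u t ![ρ, 0, z] 0) volume z₃ z₄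
      · have h4 := intervalIntegral.integral_mono_on (f := fun _ => -|C|) b2
          intervalIntegrable_const hi (fun z hz => (neg_le_neg (le_abs_self C)).trans (hcon z (by
            rw [abs_le]
            constructor <;> linarith [hz.1, hz.2])))
        rw [intervalIntegral.integral_const, smul_eq_mul] at h4
        linarith
      · rw [intervalIntegral.integral_undef hi]
        have := sub_nonneg.2 b2
        have h5 : 0 ≤ |C| * (z₄ - z₃) := by positivity
        linarith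
    nlinarith

/-- Let `ν > 0`.

(a) Let `(u, p)` be a smooth solution of the Navier-Stokes equations in `(0, T) × Ω`, `Ω` open,
without force and with viscosity `ν`, with finite energy, finite dissipation and integrable
pressure (`DSl`), and axisymmetric: `u(t, rot θ x) = rot θ (u(t, x))` if `x` and `rot θ x` are in
`Ω`. Then `BothFluxes` and `BothSigns` hold at every singular point `a ∈ Ω` of the axis.

(b) Let `(u, p)` be a smooth axisymmetric solution on `(0, T) × ℝ³` with bounded energy, finite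
dissipation and locally integrable pressure (`WSl`). If `u` is unbounded near the time `T` then it
has a singular point. All the singular points lie on the axis, and `BothFluxes` and `BothSigns`
hold at each. -/
theorem result (ν T : ℝ) (u : ℝ → V → V) (p : ℝ → V → ℝ) (hν : 0 < ν) :
    (∀ (E : ℝ) (Ω : Set V), DSl ν T E Ω u p →
      (∀ t ∈ Ioo 0 T, ∀ (θ : ℝ), ∀ x ∈ Ω, rot θ x ∈ Ω → u t (rot θ x) = rot θ (u t x)) →
      ∀ a ∈ Ω, a 0 = 0 → a 1 = 0 → Sing T u a → BothFluxes ν T u a ∧ BothSigns T u a) ∧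
    ∀ E : ℝ, WSl ν T E u p → (∀ t ∈ Ioo 0 T, Axi (u t)) → (Blow T u → ∃ a, Sing T u a) ∧
      ∀ a, Sing T u a → a 0 = 0 ∧ a 1 = 0 ∧ BothFluxes ν T u a ∧ BothSigns T u a := by
  have key : ∀ (E : ℝ) (Ω : Set V), DSl ν T E Ω u p →
      (∀ t ∈ Ioo 0 T, ∀ (θ : ℝ), ∀ x ∈ Ω, rot θ x ∈ Ω → u t (rot θ x) = rot θ (u t x)) →
      ∀ a ∈ Ω, a 0 = 0 → a 1 = 0 → Sing T u a → BothFluxes ν T u a ∧ BothSigns T u a := by
    intro E Ω h hax a ha ha0 ha1 hs
    have h1 := both_fluxes (D0H33.AXF.flows_D D0H33.AXF.hMainF Q67.AXI.hTra hν h hax ha ha0 ha1 hs)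
    exact ⟨h1, both_signs hν h1⟩
  refine ⟨key, fun E h hax => ⟨fun hB => Q85.CL.sing_whole Q95.CL.far Q285.CL.wsc hν h hB,
    fun a hs => ?_⟩⟩
  obtain ⟨h0, h1⟩ := Q67.AXI.axis_W Q67.AXI.hTra Q67.AXI.hWho Q67.AXI.hGR hν h hax hs
  exact ⟨h0, h1, key _ _ (Q85.CL.whole_D h a) (fun t ht θ x _ _ => hax t ht θ x) a
    (Metric.mem_ball_self (by norm_num)) h0 h1 hs⟩

end Pool.Agent.Results.MP_09540e_an.FluxesOfBothSigns
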